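import Pool.Agent.H16.HE.S8.TH377.Dyn.Dens

/-!
# Density zero in boxes
-/

set_option autoImplicit false

namespace Pool.Agent.TH377.Dyn

open NumberField Filter Topology Pool.Agent.TH120.Sec

universe u v

/-- the vectors with small coordinates -/
def BoxD {K : Type u} [Field K] {J : Type v} (ω : Module.Basis J ℤ (𝓞 K)) (N H : ℕ) :
    Set (Fin N → 𝓞 K) := {c | ∀ i j, |ω.repr (c i) j| ≤ (H : ℤ)}

lemma box_card {K : Type u} [Field K] {J : Type v} [Fintype J] (ω : Module.Basis J ℤ (𝓞 K))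
    (N H : ℕ) : (BoxD ω N H).ncard = ((2 * H + 1) ^ Fintype.card J) ^ N := by
  classical
  have e : BoxD ω N H ≃ (Fin N → J → Finset.Icc (-(H : ℤ)) H) :=
    { toFun := fun c i j => ⟨ω.repr (c.1 i) j, Finset.mem_Icc.2 (abs_le.1 (c.2 i j))⟩
      invFun := fun z => ⟨fun i => ω.equivFun.symm fun j => (z i j : ℤ), fun i j => by
        have h1 : ω.repr (ω.equivFun.symm fun j => (z i j : ℤ)) j = (z i j : ℤ) := by
          rw [← Module.Basis.equivFun_apply, LinearEquiv.apply_symm_apply]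
        rw [h1]
        exact abs_le.2 (Finset.mem_Icc.1 (z i j).2)⟩
      left_inv := fun c => by
        apply Subtype.ext
        funext i
        exact ω.equivFun.symm_apply_apply (c.1 i)
      right_inv := fun z => by
        funext i j
        apply Subtype.ext
        change ω.repr (ω.equivFun.symm fun j => (z i j : ℤ)) j = (z i j : ℤ)
        rw [← Module.Basis.equivFun_apply, LinearEquiv.apply_symm_apply] }
  rw [← Nat.card_coe_set_eq, Nat.card_congr e, Nat.card_pi]
  simp only [Nat.card_eq_fintype_card, Finset.prod_const, Finset.card_univ, Fintype.card_fin]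
  rw [Fintype.card_fun, Fintype.card_coe, Int.card_Icc]
  congr 2
  omega

lemma card_quot {K : Type u} [Field K] [NumberField K] {J : Type v} [Fintype J]
    (ω : Module.Basis J ℤ (𝓞 K)) (m : ℕ) :
    Nat.card (𝓞 K ⧸ Ideal.span {(m : 𝓞 K)}) = m ^ Fintype.card J := by
  have h1 : Nat.card (𝓞 K ⧸ Ideal.span {(m : 𝓞 K)}) = Ideal.absNorm (Ideal.span {(m : 𝓞 K)}) :=
    rfl
  rw [h1, Ideal.absNorm_span_natCast, ← Module.finrank_eq_card_basis ω]

/-- elements in a residue class -/
lemma mem_span_coord {K : Type u} [Field K] {J : Type v} [Fintype J]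
    (ω : Module.Basis J ℤ (𝓞 K)) (m : ℕ) (a : 𝓞 K) (ha : a ∈ Ideal.span {(m : 𝓞 K)}) (j : J) :
    (m : ℤ) ∣ ω.repr a j := by
  obtain ⟨b, rfl⟩ := Ideal.mem_span_singleton'.1 ha
  have h1 : b * (m : 𝓞 K) = (m : ℤ) • b := by
    rw [zsmul_eq_mul, mul_comm]
    push_cast
    rfl
  rw [h1, map_zsmul]
  exact Dvd.intro _ rfl

theorem box_bound {K : Type u} [Field K] [NumberField K] {N : ℕ} (E : Set (Fin N → 𝓞 K))
    (hE : DZ N E) {J : Type v} [Fintype J] (ω : Module.Basis J ℤ (𝓞 K)) (ε : ℝ) (hε : 0 < ε) :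
    ∃ m : ℕ, ∀ H : ℕ, ((E ∩ BoxD ω N H).ncard : ℝ) ≤
      ε * ((2 * (H : ℝ) + 1 + m) ^ Fintype.card J) ^ N := by
  classical
  obtain ⟨I, hI, hle⟩ := hE ε hε
  have hfin : Finite (𝓞 K ⧸ I) := Ideal.finiteQuotientOfFreeOfNeBot _ hI
  set m := Nat.card (𝓞 K ⧸ I) with hm
  have hm0 : 0 < m := Nat.card_pos
  set Q := 𝓞 K ⧸ Ideal.span {(m : 𝓞 K)} with hQ
  have hmI : Ideal.span {(m : 𝓞 K)} ≤ I := by
    rw [Ideal.span_singleton_le_iff_mem, ← Ideal.Quotient.eq_zero_iff_mem]
    have h1 : Nat.card (𝓞 K ⧸ I) • (1 : 𝓞 K ⧸ I) = 0 := card_nsmul_eq_zero'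
    rw [nsmul_eq_mul, mul_one] at h1
    rw [map_natCast]
    exact h1
  have hne : Ideal.span {(m : 𝓞 K)} ≠ ⊥ := by
    rw [Ne, Ideal.span_singleton_eq_bot]
    exact_mod_cast hm0.ne'
  have hfinQ : Finite Q := Ideal.finiteQuotientOfFreeOfNeBot _ hne
  have hcQ : Nat.card Q = m ^ Fintype.card J := card_quot ω m
  let f : Q →+* 𝓞 K ⧸ I := Ideal.Quotient.factor hmI
  have hf : Function.Surjective f := Ideal.Quotient.factor_surjective hmI
  have hfmk : ∀ a, f (Ideal.Quotient.mk _ a) = Ideal.Quotient.mk I a := fun a => rfl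
  let s := Function.surjInv hf
  have hs : ∀ y, f (s y) = y := Function.surjInv_eq hf
  set k0 : Set Q := {x | f x = 0} with hk0
  set S := red I N '' E with hS
  -- the kernel
  have hk : k0.ncard * m ≤ Nat.card Q := by
    have h1 : Nat.card (k0 × (𝓞 K ⧸ I)) ≤ Nat.card Q := by
      refine Nat.card_le_card_of_injective (fun x => (x.1 : Q) + s x.2) ?_
      rintro ⟨⟨k, hk⟩, y⟩ ⟨⟨k', hk'⟩, y'⟩ h
      have h0 : k + s y = k' + s y' := h
      have h2 : y = y' := by
        have := congrArg f h0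
        rwa [map_add, map_add, hs, hs, show f k = 0 from hk, show f k' = 0 from hk', zero_add,
          zero_add] at this
      subst h2
      have h3 : k = k' := add_right_cancel h0
      subst h3
      rfl
    rwa [Nat.card_prod, Nat.card_coe_set_eq] at h1
  refine ⟨m, fun H => ?_⟩
  -- the injection
  set T := (2 * H) / m + 1 with hT
  set P : Set (Fin N → Q) := {x | (fun i => f (x i)) ∈ S} with hP
  have hPc : P.ncard ≤ S.ncard * k0.ncard ^ N := by
    have h1 : Nat.card P ≤ Nat.card (S × (Fin N → k0)) := by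
      refine Nat.card_le_card_of_injective (fun x => (⟨fun i => f (x.1 i), x.2⟩,
        fun i => ⟨x.1 i - s (f (x.1 i)), by
          change f (x.1 i - s (f (x.1 i))) = 0
          rw [map_sub, hs, sub_self]⟩)) ?_
      rintro ⟨x, hx⟩ ⟨y, hy⟩ h
      have h2 : (fun i => f (x i)) = fun i => f (y i) :=
        congrArg Subtype.val (congrArg Prod.fst h)
      have h3 := congrArg Prod.snd h
      apply Subtype.ext
      funext i
      have h4 : x i - s (f (x i)) = y i - s (f (y i)) := congrArg Subtype.val (congrFun h3 i)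
      have h5 : f (x i) = f (y i) := congrFun h2 i
      rw [h5] at h4
      exact sub_left_injective h4
    rw [Nat.card_prod, Nat.card_pi] at h1
    simp only [Nat.card_coe_set_eq, Finset.prod_const, Finset.card_univ, Fintype.card_fin] at h1
    exact h1
  have hinj : (E ∩ BoxD ω N H).ncard ≤ (T ^ Fintype.card J) ^ N * P.ncard := by
    have h1 : Nat.card (E ∩ BoxD ω N H : Set (Fin N → 𝓞 K)) ≤
        Nat.card ((Fin N → J → Fin T) × P) := by
      have hbd : ∀ c ∈ BoxD ω N H, ∀ i j, ((ω.repr (c i) j + H) / m).toNat < T := by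
        intro c hc i j
        have h2 := abs_le.1 (hc i j)
        have h3 : 0 ≤ (ω.repr (c i) j + H) / (m : ℤ) :=
          Int.ediv_nonneg (by linarith [h2.1]) (by positivity)
        have h4 : (ω.repr (c i) j + H) / (m : ℤ) ≤ (2 * H : ℤ) / m :=
          Int.ediv_le_ediv (by exact_mod_cast hm0) (by linarith [h2.2])
        rw [hT]
        have h5 : ((2 * H / m : ℕ) : ℤ) = (2 * H : ℤ) / m := by push_cast; rfl
        omega
      refine Nat.card_le_card_of_injective (fun c =>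
        (fun i j => ⟨((ω.repr (c.1 i) j + H) / m).toNat, hbd c.1 c.2.2 i j⟩,
          ⟨fun i => Ideal.Quotient.mk _ (c.1 i), ⟨c.1, c.2.1, rfl⟩⟩)) ?_
      rintro ⟨c, hc⟩ ⟨c', hc'⟩ h
      apply Subtype.ext
      funext i
      apply ω.repr.injective
      ext j
      have h2 : ((ω.repr (c i) j + H) / m).toNat = ((ω.repr (c' i) j + H) / m).toNat :=
        congrArg Fin.val (congrFun (congrFun (congrArg Prod.fst h) i) j)
      have h3 : Ideal.Quotient.mk (Ideal.span {(m : 𝓞 K)}) (c i) =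
          Ideal.Quotient.mk (Ideal.span {(m : 𝓞 K)}) (c' i) :=
        congrFun (congrArg Subtype.val (congrArg Prod.snd h)) i
      rw [Ideal.Quotient.eq] at h3
      have h4 := mem_span_coord ω m _ h3 j
      rw [map_sub, Finsupp.sub_apply] at h4
      have h5 : 0 ≤ (ω.repr (c i) j + H) / (m : ℤ) :=
        Int.ediv_nonneg (by linarith [(abs_le.1 (hc.2 i j)).1]) (by positivity)
      have h6 : 0 ≤ (ω.repr (c' i) j + H) / (m : ℤ) :=
        Int.ediv_nonneg (by linarith [(abs_le.1 (hc'.2 i j)).1]) (by positivity)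
      have h7 : (ω.repr (c i) j + H) / (m : ℤ) = (ω.repr (c' i) j + H) / (m : ℤ) := by omega
      have h8 : (ω.repr (c i) j + H) % (m : ℤ) = (ω.repr (c' i) j + H) % (m : ℤ) := by
        refine Int.emod_emod_of_dvd _ dvd_rfl ▸ ?_
        refine (Int.emod_emod_of_dvd _ dvd_rfl).trans ?_
        refine Int.ModEq.symm ((Int.modEq_iff_dvd).2 ?_)
        convert h4 using 1
        ring
      have h9 := Int.mul_ediv_add_emod (ω.repr (c i) j + H) m
      have h10 := Int.mul_ediv_add_emod (ω.repr (c' i) j + H) m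
      rw [h7, h8] at h9
      have h11 := h9.symm.trans h10
      linarith
    rw [Nat.card_prod, Nat.card_pi] at h1
    simp only [Nat.card_coe_set_eq, Finset.prod_const, Finset.card_univ,
      Fintype.card_fin, Nat.card_eq_fintype_card] at h1
    rwa [Fintype.card_fun, Fintype.card_fin] at h1
  have h1 : ((E ∩ BoxD ω N H).ncard : ℝ) ≤
      ((T : ℝ) ^ Fintype.card J) ^ N * ((S.ncard : ℝ) * (k0.ncard : ℝ) ^ N) := by
    have h2 : (E ∩ BoxD ω N H).ncard ≤ (T ^ Fintype.card J) ^ N * (S.ncard * k0.ncard ^ N) :=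
      hinj.trans (Nat.mul_le_mul_left _ hPc)
    exact_mod_cast h2
  refine h1.trans ?_
  have h2 : (k0.ncard : ℝ) * m ≤ (m : ℝ) ^ Fintype.card J := by
    rw [hcQ] at hk
    exact_mod_cast hk
  have h3 : ((T : ℝ) ^ Fintype.card J) ^ N * ((S.ncard : ℝ) * (k0.ncard : ℝ) ^ N) ≤
      ((T : ℝ) ^ Fintype.card J) ^ N * (ε * ((m : ℝ) ^ Fintype.card J) ^ N) := by
    refine mul_le_mul_of_nonneg_left ?_ (by positivity)
    calc (S.ncard : ℝ) * (k0.ncard : ℝ) ^ N ≤ (ε * (m : ℝ) ^ N) * (k0.ncard : ℝ) ^ N :=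
          mul_le_mul_of_nonneg_right hle (by positivity)
      _ = ε * ((k0.ncard : ℝ) * m) ^ N := by rw [mul_pow]; ring
      _ ≤ ε * ((m : ℝ) ^ Fintype.card J) ^ N := by gcongr
  refine h3.trans ?_
  have h4 : (T : ℝ) * m ≤ 2 * (H : ℝ) + 1 + m := by
    have h5 : (2 * H) / m * m ≤ 2 * H := Nat.div_mul_le_self _ _
    have h6 : ((2 * H / m : ℕ) : ℝ) * m ≤ 2 * H := by exact_mod_cast h5
    rw [hT]
    push_cast
    linarith
  calc ((T : ℝ) ^ Fintype.card J) ^ N * (ε * ((m : ℝ) ^ Fintype.card J) ^ N) =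
        ε * (((T : ℝ) * m) ^ Fintype.card J) ^ N := by
        rw [mul_pow (T : ℝ), mul_pow]
        ring
    _ ≤ _ := by gcongr

/-- **Density zero in boxes.** -/
theorem box_tendsto {K : Type u} [Field K] [NumberField K] {N : ℕ} (E : Set (Fin N → 𝓞 K))
    (hE : DZ N E) {J : Type v} [Fintype J] (ω : Module.Basis J ℤ (𝓞 K)) :
    Tendsto (fun H : ℕ => ((E ∩ BoxD ω N H).ncard : ℝ) / ((BoxD ω N H).ncard : ℝ)) atTop
      (𝓝 0) := by
  rw [Metric.tendsto_atTop]
  intro ε hε
  obtain ⟨m, hm⟩ := box_bound E hE ω (ε / 4) (by positivity)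
  have hlim : Tendsto (fun H : ℕ => ((1 + (m : ℝ) / (2 * (H : ℝ) + 1)) ^ Fintype.card J) ^ N)
      atTop (𝓝 1) := by
    have h1 : Tendsto (fun H : ℕ => (m : ℝ) / (2 * (H : ℝ) + 1)) atTop (𝓝 0) := by
      refine Tendsto.div_atTop tendsto_const_nhds ?_
      exact tendsto_atTop_add_const_right _ _
        ((tendsto_natCast_atTop_atTop).const_mul_atTop two_pos)
    have h2 := ((tendsto_const_nhds (x := (1 : ℝ))).add h1).pow (Fintype.card J)
    have h3 := h2.pow N
    simpa using h3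
  have hev := (hlim.eventually (gt_mem_nhds (one_lt_two))).exists_forall_of_atTop
  obtain ⟨H0, hH0⟩ := hev
  refine ⟨H0, fun H hH => ?_⟩
  have hB : ((BoxD ω N H).ncard : ℝ) = ((2 * (H : ℝ) + 1) ^ Fintype.card J) ^ N := by
    rw [box_card]
    push_cast
    rfl
  have hpos : (0 : ℝ) < 2 * (H : ℝ) + 1 := by positivity
  rw [Real.dist_eq, sub_zero, abs_of_nonneg (by positivity), hB, div_lt_iff₀ (by positivity)]
  refine (hm H).trans_lt ?_
  have h5 : ((2 * (H : ℝ) + 1 + m) ^ Fintype.card J) ^ N =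
      ((1 + (m : ℝ) / (2 * (H : ℝ) + 1)) ^ Fintype.card J) ^ N *
        ((2 * (H : ℝ) + 1) ^ Fintype.card J) ^ N := by
    rw [← mul_pow, ← mul_pow]
    congr 2
    field_simp
  rw [h5]
  have h6 := hH0 H hH
  have h7 : (0 : ℝ) < ((2 * (H : ℝ) + 1) ^ Fintype.card J) ^ N := by positivity
  nlinarith [mul_lt_mul_of_pos_right h6 h7]

end Pool.Agent.TH377.Dyn
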