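import Pool.Agent.H16.HE.S8.TH377.Sup.Good

/-!
# Counting, degree at least two
-/

set_option autoImplicit false

namespace Pool.Agent.TH377.Dyn

open Polynomial NumberField IsDedekindDomain Pool.Agent.TH120.Sec Pool.Agent.TH377.Sup

universe u v

section finite

variable (κ : Type u) [Field κ] [Finite κ]

/-- the elements of small degree -/
lemma few2 (E : Type v) [Field E] [Algebra κ E] [Finite E] (d : ℕ) (hd : 2 ≤ d)
    (hE : Module.finrank κ E = d) :
    4 * {z : E | (minpoly κ z).natDegree ≠ d}.ncard ≤ 2 * Nat.card E := by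
  classical
  set q := Nat.card κ with hq
  have hq2 : 2 ≤ q := Finite.one_lt_card
  have hfd : FiniteDimensional κ E := Module.finite_of_finrank_pos (by omega)
  have hcardE : Nat.card E = q ^ d := by rw [← hE, Module.natCard_eq_pow_finrank (K := κ)]
  set m := d / 2 with hm
  have hroot : ∀ e : ℕ, 0 < e → {z : E | z ^ q ^ e = z}.ncard ≤ q ^ e := by
    intro e he
    have hne : (X ^ q ^ e - X : E[X]) ≠ 0 := FiniteField.X_pow_card_pow_sub_X_ne_zero _ he.ne' hq2
    have h1 : {z : E | z ^ q ^ e = z} ⊆ ((X ^ q ^ e - X : E[X]).roots.toFinset : Set E) := by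
      intro z hz
      rw [Finset.mem_coe, Multiset.mem_toFinset, mem_roots hne, IsRoot.def, eval_sub, eval_pow,
        eval_X, sub_eq_zero]
      exact hz
    refine (Set.ncard_le_ncard h1 (Finset.finite_toSet _)).trans ?_
    rw [Set.ncard_coe_finset]
    refine (Multiset.toFinset_card_le _).trans ((card_roots' _).trans ?_)
    rw [FiniteField.X_pow_card_pow_sub_X_natDegree_eq _ he.ne' hq2]
  have hsub : {z : E | (minpoly κ z).natDegree ≠ d} ⊆
      ⋃ e ∈ Finset.Icc 1 m, {z : E | z ^ q ^ e = z} := by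
    intro z hz
    have hint : IsIntegral κ z := Algebra.IsIntegral.isIntegral z
    have hirr := minpoly.irreducible hint
    have hdvd : (minpoly κ z).natDegree ∣ d := by
      rw [← hE]
      exact minpoly.degree_dvd hint
    have hpos : 0 < (minpoly κ z).natDegree := minpoly.natDegree_pos hint
    have hz' : (minpoly κ z).natDegree ≠ d := hz
    simp only [Set.mem_iUnion]
    refine ⟨(minpoly κ z).natDegree, ?_, ?_⟩
    · rw [Finset.mem_Icc]
      refine ⟨hpos, ?_⟩
      obtain ⟨t, ht⟩ := hdvd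
      have ht2 : 2 ≤ t := by
        by_contra h
        have : t = 0 ∨ t = 1 := by omega
        rcases this with rfl | rfl
        · omega
        · rw [mul_one] at ht
          exact hz' ht.symm
      rw [hm, Nat.le_div_iff_mul_le two_pos]
      calc (minpoly κ z).natDegree * 2 ≤ (minpoly κ z).natDegree * t := Nat.mul_le_mul_left _ ht2
        _ = d := ht.symm
    · have h1 := (hirr.natDegree_dvd_iff_dvd_X_pow_card_pow_sub_X (n := (minpoly κ z).natDegree)).1
        dvd_rfl
      have h2 := aeval_eq_zero_of_dvd_aeval_eq_zero h1 (minpoly.aeval κ z)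
      rw [map_sub, map_pow, aeval_X, sub_eq_zero] at h2
      exact h2
  have h3 : {z : E | (minpoly κ z).natDegree ≠ d}.ncard ≤ ∑ e ∈ Finset.Icc 1 m, q ^ e := by
    refine (Set.ncard_le_ncard hsub (Set.toFinite _)).trans ?_
    refine (Finset.set_ncard_biUnion_le _ _).trans ?_
    exact Finset.sum_le_sum fun e he => hroot e (Finset.mem_Icc.1 he).1
  have h4 : ∀ n : ℕ, ∑ e ∈ Finset.Icc 1 n, q ^ e ≤ 2 * q ^ n := by
    intro n
    induction n with
    | zero => simp
    | succ n ih =>
      rw [Finset.sum_Icc_succ_top (by omega)]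
      have h5 : 2 * q ^ n ≤ q ^ (n + 1) := by
        rw [pow_succ, mul_comm]
        exact Nat.mul_le_mul_left _ hq2
      omega
  rcases Nat.lt_or_ge 2 d with hd3 | hd3
  · have h5 : 4 * q ^ m ≤ q ^ d := by
      have h6 : d = m + (d - m) := by omega
      rw [h6, pow_add, mul_comm]
      refine Nat.mul_le_mul_left _ ?_
      calc 4 = 2 ^ 2 := by norm_num
        _ ≤ q ^ 2 := Nat.pow_le_pow_left hq2 2
        _ ≤ q ^ (d - m) := Nat.pow_le_pow_right (by omega) (by omega)
    rw [hcardE]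
    have := h4 m
    omega
  · have h6 : d = 2 := le_antisymm hd3 hd
    have h7 : m = 1 := by rw [hm, h6]
    rw [h7, Finset.Icc_self, Finset.sum_singleton, pow_one] at h3
    have h8 : q ^ d = q * q := by rw [h6, sq]
    rw [hcardE, h8]
    have h9 : 2 * q ≤ q * q := Nat.mul_le_mul_right _ hq2
    omega

/-- there are many irreducible polynomials -/
theorem irr_card2 (d : ℕ) (hd : 2 ≤ d) :
    (Nat.card κ - 1) * Nat.card κ ^ d ≤ 2 * d * (Irr κ d).ncard := by
  classical
  obtain ⟨p, hp⟩ := CharP.exists κ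
  have hpp : Fact p.Prime := ⟨CharP.char_is_prime κ p⟩
  have hnz : NeZero d := ⟨by omega⟩
  let E := FiniteField.Extension κ p d
  have hE : Module.finrank κ E = d := FiniteField.finrank_extension κ p d
  have hcard : Nat.card E = Nat.card κ ^ d := FiniteField.natCard_extension κ p d
  have hfe := few2 κ E d hd hE
  have hFE : Fintype E := Fintype.ofFinite E
  have hFκ : Fintype κ := Fintype.ofFinite κ
  set B : Set E := {z : E | (minpoly κ z).natDegree ≠ d} with hB
  set G : Finset E := Finset.univ.filter fun z => (minpoly κ z).natDegree = d with hG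
  have hGB : G.card + B.ncard = Nat.card E := by
    have h1 : (G : Set E) = Bᶜ := by
      ext z
      simp [hG, hB]
    rw [← Set.ncard_coe_finset, h1, add_comm, Set.ncard_add_ncard_compl]
  let T : Finset (Fin (d + 1) → κ) := (Set.toFinite (Irr κ d)).toFinset
  have hT : T.card = (Irr κ d).ncard := (Set.ncard_eq_toFinset_card _ _).symm
  let Φ : κˣ × E → (Fin (d + 1) → κ) := fun x i => (C (x.1 : κ) * minpoly κ x.2).coeff i
  have hΦ : ∀ x : κˣ × E, x.2 ∈ G → pol (Φ x) = C (x.1 : κ) * minpoly κ x.2 := by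
    intro x hx
    refine pol_of _ ?_
    rw [natDegree_C_mul x.1.ne_zero]
    exact le_of_eq (Finset.mem_filter.1 hx).2
  have hlast : ∀ x : κˣ × E, x.2 ∈ G → Φ x (Fin.last d) = x.1 := by
    intro x hx
    have h1 : (minpoly κ x.2).natDegree = d := (Finset.mem_filter.1 hx).2
    have hmon : (minpoly κ x.2).Monic := minpoly.monic (Algebra.IsIntegral.isIntegral x.2)
    change (C (x.1 : κ) * minpoly κ x.2).coeff ((Fin.last d : Fin (d + 1)) : ℕ) = _
    rw [Fin.val_last, coeff_C_mul]
    have h2 : (minpoly κ x.2).coeff d = 1 := by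
      have := hmon.coeff_natDegree
      rwa [h1] at this
    rw [h2, mul_one]
  have key := Finset.card_le_mul_card_image_of_maps_to (f := Φ)
    (s := (Finset.univ : Finset κˣ) ×ˢ G) (t := T) (by
      intro x hx
      have hx2 : x.2 ∈ G := (Finset.mem_product.1 hx).2
      rw [Set.Finite.mem_toFinset]
      refine ⟨?_, ?_⟩
      · rw [hlast x hx2]
        exact x.1.ne_zero
      · rw [hΦ x hx2]
        have hirr := minpoly.irreducible (Algebra.IsIntegral.isIntegral (R := κ) x.2)
        exact (irreducible_isUnit_mul (isUnit_C.2 x.1.isUnit)).2 hirr) d (by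
      intro c hc
      rw [Set.Finite.mem_toFinset] at hc
      have h0 : (pol c).map (algebraMap κ E) ≠ 0 :=
        (Polynomial.map_ne_zero_iff (algebraMap κ E).injective).2 hc.2.ne_zero
      have h1 : ((((Finset.univ : Finset κˣ) ×ˢ G).filter fun x => Φ x = c).image Prod.snd).card ≤
          d := by
        have h2 : (((Finset.univ : Finset κˣ) ×ˢ G).filter fun x => Φ x = c).image Prod.snd ⊆
            ((pol c).map (algebraMap κ E)).roots.toFinset := by
          intro z hz
          obtain ⟨x, hx, rfl⟩ := Finset.mem_image.1 hz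
          obtain ⟨hx1, hx2⟩ := Finset.mem_filter.1 hx
          rw [Multiset.mem_toFinset, mem_roots h0, IsRoot.def, ← hx2,
            hΦ x (Finset.mem_product.1 hx1).2, eval_map_algebraMap, map_mul, minpoly.aeval,
            mul_zero]
        refine (Finset.card_le_card h2).trans ((Multiset.toFinset_card_le _).trans
          ((card_roots' _).trans ?_))
        exact natDegree_map_le.trans (pol_natDegree_le c)
      rwa [Finset.card_image_of_injOn] at h1
      intro x hx y hy hxy
      obtain ⟨hx1, hx2⟩ := Finset.mem_filter.1 (Finset.mem_coe.1 hx)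
      obtain ⟨hy1, hy2⟩ := Finset.mem_filter.1 (Finset.mem_coe.1 hy)
      refine Prod.ext ?_ hxy
      apply Units.ext
      rw [← hlast x (Finset.mem_product.1 hx1).2, ← hlast y (Finset.mem_product.1 hy1).2, hx2,
        hy2])
  rw [Finset.card_product, hT, Finset.card_univ, ← Nat.card_eq_fintype_card, Nat.card_units] at key
  have h6 : Nat.card κ ^ d ≤ 2 * G.card := by
    rw [← hcard]
    omega
  calc (Nat.card κ - 1) * Nat.card κ ^ d ≤ (Nat.card κ - 1) * (2 * G.card) :=
        Nat.mul_le_mul_left _ h6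
    _ = 2 * ((Nat.card κ - 1) * G.card) := by ring
    _ ≤ 2 * (d * (Irr κ d).ncard) := Nat.mul_le_mul_left _ key
    _ = 2 * d * (Irr κ d).ncard := by ring

end finite



section good

variable {K : Type u} [Field K] [NumberField K] (v : HeightOneSpectrum (𝓞 K))

lemma goodV_card2 (d : ℕ) (hd : 2 ≤ d) :
    (Ideal.absNorm v.asIdeal - 1) ^ 2 * Ideal.absNorm v.asIdeal ^ (2 * d + 1) ≤
      2 * d * (GoodV v d).ncard := by
  classical
  have hfin := finite_sq v
  have hmax : v.asIdeal.IsMaximal := v.isMaximal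
  have hfin' : Finite (𝓞 K ⧸ v.asIdeal) := Ideal.finiteQuotientOfFreeOfNeBot _ v.ne_bot
  let _ : Field (𝓞 K ⧸ v.asIdeal) := Ideal.Quotient.field _
  set N := Ideal.absNorm v.asIdeal with hN
  have hq := irr_card2 (𝓞 K ⧸ v.asIdeal) d hd
  rw [card_residue, ← hN] at hq
  set J : Set (𝓞 K ⧸ v.asIdeal ^ 2) := {x | pr v x = 0} with hJ
  have hJc : J.ncard = N := ker_ncard v
  have hJ0 : (J \ {0}).ncard = N - 1 := by
    rw [Set.ncard_sdiff_singleton_of_mem (show (0 : 𝓞 K ⧸ v.asIdeal ^ 2) ∈ J from map_zero _), hJc]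
  have hJp : (Set.pi Set.univ fun _ : Fin (d + 1) => J).ncard = N ^ (d + 1) := by
    rw [← Nat.card_coe_set_eq, Nat.card_congr (Equiv.Set.univPi _), Nat.card_pi]
    simp only [Nat.card_coe_set_eq, hJc, Finset.prod_const, Finset.card_univ, Fintype.card_fin]
  let s := Function.surjInv (pr_surj v)
  have hs : ∀ x, pr v (s x) = x := Function.surjInv_eq (pr_surj v)
  have h1 : (((J \ {0}) ×ˢ (Irr (𝓞 K ⧸ v.asIdeal) d)) ×ˢ
      (Set.pi Set.univ fun _ : Fin (d + 1) => J)).ncard ≤ (GoodV v d).ncard := by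
    refine Set.ncard_le_ncard_of_injOn
      (fun x => Fin.cons x.1.1 fun i => s (x.1.2 i) + x.2 i) ?_ ?_ (Set.toFinite _)
    · rintro ⟨⟨j, c⟩, t⟩ ⟨⟨hj, hc⟩, ht⟩
      have e1 : ∀ i, pr v (s (c i) + t i) = c i := by
        intro i
        rw [map_add, hs, show pr v (t i) = 0 from ht i (Set.mem_univ i), add_zero]
      refine ⟨hj.1, hj.2, ?_, ?_⟩
      · change pr v (s (c (Fin.last d)) + t (Fin.last d)) ≠ 0
        rw [e1]
        exact hc.1
      · change Irreducible (pol fun i : Fin (d + 1) => pr v (s (c i) + t i))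
        simp only [e1]
        exact hc.2
    · rintro ⟨⟨j, c⟩, t⟩ ⟨⟨hj, hc⟩, ht⟩ ⟨⟨j', c'⟩, t'⟩ ⟨⟨hj', hc'⟩, ht'⟩ h
      have h0 : j = j' := congrFun h 0
      have h1 : ∀ i : Fin (d + 1), s (c i) + t i = s (c' i) + t' i := fun i => congrFun h i.succ
      have e1 : c = c' := by
        funext i
        have := congrArg (pr v) (h1 i)
        rwa [map_add, map_add, hs, hs, show pr v (t i) = 0 from ht i (Set.mem_univ i),
          show pr v (t' i) = 0 from ht' i (Set.mem_univ i), add_zero, add_zero] at this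
      subst h0 e1
      have e2 : t = t' := by
        funext i
        have := h1 i
        rwa [add_right_inj] at this
      rw [e2]
  rw [Set.ncard_prod, Set.ncard_prod, hJp, hJ0] at h1
  calc (N - 1) ^ 2 * N ^ (2 * d + 1) = (N - 1) * ((N - 1) * N ^ d) * N ^ (d + 1) := by ring
    _ ≤ (N - 1) * (2 * d * (Irr (𝓞 K ⧸ v.asIdeal) d).ncard) * N ^ (d + 1) := by
        gcongr
    _ = 2 * d * ((N - 1) * (Irr (𝓞 K ⧸ v.asIdeal) d).ncard * N ^ (d + 1)) := by ring
    _ ≤ 2 * d * (GoodV v d).ncard := Nat.mul_le_mul_left _ h1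

/-- the complement of the good vectors -/
lemma badV_card2 (d : ℕ) (hd : 2 ≤ d) :
    (((GoodV v d)ᶜ).ncard : ℝ) ≤ (1 - (1 / (4 * d)) * (1 / (Ideal.absNorm v.asIdeal : ℝ) -
      1 / (Ideal.absNorm v.asIdeal : ℝ) ^ 2)) * ((Ideal.absNorm v.asIdeal : ℝ) ^ 2) ^ (d + 2) := by
  classical
  have hfin := finite_sq v
  have h1 := goodV_card2 v d hd
  have h2 : (GoodV v d).ncard + ((GoodV v d)ᶜ).ncard = (Ideal.absNorm v.asIdeal ^ 2) ^ (d + 2) := by
    rw [Set.ncard_add_ncard_compl, Nat.card_fun, Pool.Agent.W417.SecC.D2.card_sq, Nat.card_fin]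
  set N := Ideal.absNorm v.asIdeal with hN
  have hN2 : 2 ≤ N := by
    by_contra h
    have h3 : N = 0 ∨ N = 1 := by omega
    rcases h3 with h3 | h3
    · exact absurd h3 (Pool.Agent.W417.SecC.D2.norm_pos v).ne'
    · rw [hN, Ideal.absNorm_eq_one_iff] at h3
      exact v.isPrime.ne_top h3
  have h3 : ((GoodV v d).ncard : ℝ) + (((GoodV v d)ᶜ).ncard : ℝ) = ((N : ℝ) ^ 2) ^ (d + 2) := by
    exact_mod_cast h2
  have h4 : ((N : ℝ) - 1) ^ 2 * (N : ℝ) ^ (2 * d + 1) ≤ 2 * d * ((GoodV v d).ncard : ℝ) := by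
    have h5 : ((N - 1 : ℕ) : ℝ) = (N : ℝ) - 1 := by
      rw [Nat.cast_sub (by omega)]
      norm_num
    rw [← h5]
    exact_mod_cast h1
  have hNr : (2 : ℝ) ≤ N := by exact_mod_cast hN2
  have hdr : (0 : ℝ) < d := by
    have : 0 < d := by omega
    exact_mod_cast this
  have h6 : (1 - (1 / (4 * d)) * (1 / (N : ℝ) - 1 / (N : ℝ) ^ 2)) * ((N : ℝ) ^ 2) ^ (d + 2) =
      ((N : ℝ) ^ 2) ^ (d + 2) - (1 / (4 * d)) * (((N : ℝ) - 1) * (N : ℝ) ^ (2 * d + 2)) := by
    have hN0 : (N : ℝ) ≠ 0 := by linarith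
    have h7 : ((N : ℝ) ^ 2) ^ (d + 2) = (N : ℝ) ^ 2 * (N : ℝ) ^ (2 * d + 2) := by ring
    rw [h7]
    field_simp
  rw [h6]
  have h7 : (1 / 2) * (((N : ℝ) - 1) * (N : ℝ) ^ (2 * d + 2)) ≤
      ((N : ℝ) - 1) ^ 2 * (N : ℝ) ^ (2 * d + 1) := by
    have h9 : 0 ≤ ((N : ℝ) - 1) * (N : ℝ) ^ (2 * d + 1) := by
      apply mul_nonneg
      · linarith
      · positivity
    have h10 : (N : ℝ) ^ (2 * d + 2) = (N : ℝ) ^ (2 * d + 1) * N := pow_succ _ _
    rw [h10]
    nlinarith
  have h8 : (1 / (4 * d)) * (((N : ℝ) - 1) * (N : ℝ) ^ (2 * d + 2)) ≤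
      ((GoodV v d).ncard : ℝ) := by
    have h9 := h7.trans h4
    have h10 : (1 / (4 * d)) * (((N : ℝ) - 1) * (N : ℝ) ^ (2 * d + 2)) =
        ((1 / 2) * (((N : ℝ) - 1) * (N : ℝ) ^ (2 * d + 2))) / (2 * d) := by
      field_simp
      ring
    rw [h10, div_le_iff₀ (by positivity)]
    linarith
  linarith

end good

end Pool.Agent.TH377.Dyn
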