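import Pool.Agent.H16.HE.S8.TH120.Sec.Split
import Pool.Agent.H16.HE.S8.TH377.Dyn.Cnt

/-!
# Almost all vectors are good at some prime
-/

set_option autoImplicit false

namespace Pool.Agent.TH377.Dyn

open Polynomial NumberField IsDedekindDomain Pool.Agent.TH120.Sec Pool.Agent.TH377.Sup

universe u

/-- almost all vectors are good at a prime that does not divide `D` -/
theorem dz_prime (K : Type u) [Field K] [NumberField K] (d : ℕ) (hd : 2 ≤ d) (D : 𝓞 K)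
    (hD : D ≠ 0) :
    DZ (d + 2) {c : Fin (d + 2) → 𝓞 K | ¬ ∃ v : HeightOneSpectrum (𝓞 K), D ∉ v.asIdeal ∧
      c 0 ∈ v.asIdeal ∧ c 0 ∉ v.asIdeal ^ 2 ∧ IrrMod v d fun i => c i.succ} := by
  have hd2 : (2 : ℝ) ≤ d := by exact_mod_cast hd
  have hδ1 : (1 / (4 * d) : ℝ) ≤ 1 := by
    rw [div_le_one (by linarith)]
    linarith
  have hδ0 : (0 : ℝ) < 1 / (4 * d) := by positivity
  refine dz_of_supply (d + 2) (fun v => D ∉ v.asIdeal) (fun v => (GoodV v d)ᶜ)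
    (1 / (4 * d)) ?_ (fun v _ => badV_card2 v d hd) _ ?_
  · intro ε hε
    obtain ⟨T, hT, hTε⟩ := supply_split (K := K) 2 Nat.prime_two D hD
      (1 / (4 * d) : ℝ) hδ0 hδ1 ε hε
    exact ⟨T, fun v hv => (hT v hv).1, hTε⟩
  · intro c hc v hv hgood
    obtain ⟨g1, g2, g3⟩ := good_iff v d c hgood
    exact hc ⟨v, hv, g1, g2, g3⟩

/-- smaller sets -/
lemma DZ.mono {K : Type u} [Field K] [NumberField K] {d : ℕ} {E E' : Set (Fin d → 𝓞 K)}
    (h : DZ d E') (hE : E ⊆ E') : DZ d E := by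
  intro ε hε
  obtain ⟨I, hI, hle⟩ := h ε hε
  refine ⟨I, hI, le_trans ?_ hle⟩
  have hfin : Finite (𝓞 K ⧸ I) := Ideal.finiteQuotientOfFreeOfNeBot _ hI
  exact_mod_cast Set.ncard_le_ncard (Set.image_mono hE) (Set.toFinite _)

end Pool.Agent.TH377.Dyn
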