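import Pool.Agent.H16.HE.S8.TH377.Dyn.Main

/-!
# Periodic sequences of Hénon maps
-/

set_option autoImplicit false

namespace Pool.Agent.TH377.Dyn

open Polynomial NumberField IsDedekindDomain

universe u v

section local_

variable {L : Type u} {Γ : Type v} [Field L] [LinearOrderedCommGroupWithZero Γ]
  (V : Valuation L Γ)

/-- a periodic solution of `s_{k+2} = F(s_{k+1})/b - δ s_k` is integral, and its members are close
to roots of `F` -/
theorem henon_local (F : L[X]) (hF : ∀ i, V (F.coeff i) ≤ 1) (hl : V F.leadingCoeff = 1)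
    (hd : 0 < F.natDegree) (b : L) (hb : V b < 1) (hb0 : b ≠ 0) (δ : L) (hδ : V δ ≤ 1)
    (s : ℕ → L) (hs : ∀ k, s (k + 2) = b⁻¹ * F.eval (s (k + 1)) - δ * s k) (n : ℕ) (hn : 0 < n)
    (hper : ∀ k, s (k + n) = s k) : V (s 1) ≤ 1 ∧ V (F.eval (s 1)) < 1 := by
  have hVb : V b ≠ 0 := (Valuation.ne_zero_iff V).2 hb0
  have hb1 : 1 < (V b)⁻¹ := (one_lt_inv₀ (zero_lt_iff.2 hVb)).2 hb
  -- a member of maximal size
  obtain ⟨k, hk⟩ : ∃ k, ∀ j, V (s j) ≤ V (s (k + 1)) := by
    obtain ⟨k, -, hk⟩ := (Finset.range n).exists_max_image (fun k => V (s k))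
      ⟨0, Finset.mem_range.2 hn⟩
    have hmod : ∀ j, s j = s (j % n) := by
      intro j
      have h1 : ∀ t i, s (i + t * n) = s i := by
        intro t
        induction t with
        | zero => intro i; rw [zero_mul, add_zero]
        | succ t ih => intro i; rw [Nat.succ_mul, ← add_assoc, hper, ih]
      conv_lhs => rw [← Nat.mod_add_div' j n]
      rw [h1]
    refine ⟨k + n - 1, fun j => ?_⟩
    have h2 : k + n - 1 + 1 = k + n := by omega
    rw [h2, hper, hmod j]
    exact hk _ (Finset.mem_range.2 (Nat.mod_lt _ hn))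
  have hint : ∀ j, V (s j) ≤ 1 := by
    intro j
    refine (hk j).trans ?_
    by_contra h
    rw [not_le] at h
    have h1 : V (b⁻¹ * F.eval (s (k + 1))) = (V b)⁻¹ * V (s (k + 1)) ^ F.natDegree := by
      rw [map_mul, map_inv₀, val_eval V F hF hl _ h]
    have h2 : V (s (k + 1)) < V (b⁻¹ * F.eval (s (k + 1))) := by
      rw [h1]
      calc V (s (k + 1)) = V (s (k + 1)) ^ 1 := (pow_one _).symm
        _ ≤ V (s (k + 1)) ^ F.natDegree := pow_le_pow_right₀ h.le hd
        _ = 1 * V (s (k + 1)) ^ F.natDegree := (one_mul _).symm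
        _ < _ := mul_lt_mul_of_pos_right hb1 (pow_pos (zero_lt_one.trans h) _)
    have h3 : V (δ * s k) < V (b⁻¹ * F.eval (s (k + 1))) := by
      rw [map_mul]
      calc V δ * V (s k) ≤ 1 * V (s k) := mul_le_mul_left hδ _
        _ = V (s k) := one_mul _
        _ ≤ V (s (k + 1)) := hk k
        _ < _ := h2
    have h4 : V (s (k + 2)) = V (b⁻¹ * F.eval (s (k + 1))) := by
      rw [hs, sub_eq_add_neg, Valuation.map_add_eq_of_lt_left V (by rwa [Valuation.map_neg])]
    have h5 := hk (k + 2)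
    rw [h4] at h5
    exact absurd h5 (not_le.2 h2)
  refine ⟨hint 1, ?_⟩
  have h1 : F.eval (s 1) = b * (s 2 + δ * s 0) := by
    have h2 := hs 0
    rw [zero_add, zero_add] at h2
    rw [h2]
    field_simp
    ring
  rw [h1, map_mul]
  have h2 : V (s 2 + δ * s 0) ≤ 1 := by
    refine (Valuation.map_add V _ _).trans (max_le (hint 2) ?_)
    rw [map_mul]
    exact mul_le_one' hδ (hint 0)
  calc V b * V (s 2 + δ * s 0) ≤ V b * 1 := mul_le_mul_right h2 _
    _ = V b := mul_one _
    _ < 1 := hb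

end local_

variable {K : Type u} {L : Type v} [Field K] [NumberField K] [Field L] [NumberField L]
  [Algebra K L]

theorem dvd_of_forall (v : HeightOneSpectrum (𝓞 K))
    (F : (𝓞 K)[X]) (hlc : F.leadingCoeff ∉ v.asIdeal)
    (hirr : Irreducible (F.map (Ideal.Quotient.mk v.asIdeal))) (x : L)
    (hx : ∀ q : v.asIdeal.primesOver (𝓞 L), (ovr v q).valuation L x ≤ 1 ∧
      (ovr v q).valuation L ((F.map (algebraMap (𝓞 K) L)).eval x) < 1) :
    F.natDegree ∣ Module.finrank K L := by
  rw [← sum_ef L v]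
  exact Finset.dvd_sum fun q _ => Dvd.dvd.mul_left
    (dvd_inertia v (ovr v q) F hlc hirr x (hx q).1 (hx q).2) _

/-- the Hénon map `(x, y) ↦ (y, F(y)/b - δ x)` -/
theorem henon_dvd (v : HeightOneSpectrum (𝓞 K)) (b : 𝓞 K) (hb : b ∈ v.asIdeal) (hb0 : b ≠ 0)
    (F : (𝓞 K)[X]) (hd : 0 < F.natDegree) (hlc : F.leadingCoeff ∉ v.asIdeal)
    (hirr : Irreducible (F.map (Ideal.Quotient.mk v.asIdeal))) (δ : K) (r D : 𝓞 K)
    (hD : D ∉ v.asIdeal) (hδ : (D : K) * δ = r) (P : L × L) (n : ℕ) (hn : 0 < n)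
    (hP : (fun Q : L × L => (Q.2, (algebraMap (𝓞 K) L b)⁻¹ *
      (F.map (algebraMap (𝓞 K) L)).eval Q.2 - algebraMap K L δ * Q.1))^[n] P = P) :
    F.natDegree ∣ Module.finrank K L := by
  have hinj : Function.Injective (algebraMap (𝓞 K) L) :=
    FaithfulSMul.algebraMap_injective (𝓞 K) L
  set h : L × L → L × L := fun Q => (Q.2, (algebraMap (𝓞 K) L b)⁻¹ *
      (F.map (algebraMap (𝓞 K) L)).eval Q.2 - algebraMap K L δ * Q.1) with hh
  set s : ℕ → L := fun k => (h^[k] P).1 with hs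
  have h1 : ∀ k, s (k + 1) = (h^[k] P).2 := by
    intro k
    change (h^[k + 1] P).1 = _
    rw [Function.iterate_succ_apply']
  have h2 : ∀ k, s (k + 2) = (algebraMap (𝓞 K) L b)⁻¹ *
      (F.map (algebraMap (𝓞 K) L)).eval (s (k + 1)) - algebraMap K L δ * s k := by
    intro k
    rw [h1 (k + 1), h1 k, Function.iterate_succ_apply']
  have h3 : ∀ k, s (k + n) = s k := by
    intro k
    change (h^[k + n] P).1 = (h^[k] P).1
    rw [Function.iterate_add_apply, hP]
  refine dvd_of_forall v F hlc hirr (s 1) fun q => ?_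
  refine henon_local ((ovr v q).valuation L) _ (coeff_le v q F) ?_ ?_ (algebraMap (𝓞 K) L b)
    (val_lt_one v q b hb) ?_ (algebraMap K L δ) ?_ s h2 n hn h3
  · rw [leadingCoeff_map_of_injective hinj]
    exact val_eq_one v q _ hlc
  · rwa [natDegree_map_eq_of_injective hinj]
  · rwa [Ne, map_eq_zero_iff _ hinj]
  · have h4 : algebraMap (𝓞 K) L D * algebraMap K L δ = algebraMap (𝓞 K) L r := by
      rw [IsScalarTower.algebraMap_apply (𝓞 K) K L, IsScalarTower.algebraMap_apply (𝓞 K) K L,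
        ← map_mul]
      exact congrArg _ hδ
    have h5 : (ovr v q).valuation L (algebraMap K L δ) =
        (ovr v q).valuation L (algebraMap (𝓞 K) L r) := by
      rw [← h4, map_mul, val_eq_one v q D hD, one_mul]
    rw [h5, IsScalarTower.algebraMap_apply (𝓞 K) (𝓞 L) L]
    exact (ovr v q).valuation_le_one _

end Pool.Agent.TH377.Dyn
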