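import Pool.Agent.H16.HE.S8.TH377.Dyn.NF
import Pool.Agent.H16.HE.S8.TH377.Dyn.Dens

/-!
# Preperiodic points of almost all polynomials
-/

set_option autoImplicit false

namespace Pool.Agent.TH377.Dyn

open Polynomial NumberField IsDedekindDomain Pool.Agent.TH120.Sec Pool.Agent.TH377.Sup

universe u v

/-- the numerator -/
noncomputable def num {K : Type u} [Field K] {d : ℕ} (c : Fin (d + 2) → 𝓞 K) : (𝓞 K)[X] :=
  pol fun i => c i.succ

lemma num_facts {K : Type u} [Field K] [NumberField K] {d : ℕ} (c : Fin (d + 2) → 𝓞 K)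
    (v : HeightOneSpectrum (𝓞 K)) (h : IrrMod v d fun i => c i.succ) :
    (num c).natDegree = d ∧ (num c).leadingCoeff ∉ v.asIdeal ∧
      Irreducible ((num c).map (Ideal.Quotient.mk v.asIdeal)) := by
  have h0 : c (Fin.last d).succ ≠ 0 := fun h0 => h.1 (by
    change c (Fin.last d).succ ∈ v.asIdeal
    rw [h0]
    exact zero_mem _)
  refine ⟨pol_natDegree (fun i : Fin (d + 1) => c i.succ) h0, ?_, ?_⟩
  · rw [num, pol_leadingCoeff (fun i : Fin (d + 1) => c i.succ) h0]
    exact h.1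
  · rw [num, pol_map]
    exact h.2

lemma not_injective_iter {L : Type v} (f : L → L) (x : L) (m n : ℕ) (hmn : m < n)
    (h : f^[m] x = f^[n] x) : ¬ Function.Injective fun n => f^[n] x := fun hi =>
  hmn.ne (hi h)

/-- the map attached to a vector -/
lemma map_eq {K : Type u} {L : Type v} [Field K] [NumberField K] [Field L] [NumberField L]
    [Algebra K L] {d : ℕ} (c : Fin (d + 2) → 𝓞 K) (y : L) :
    aeval y (C ((c 0 : K)⁻¹) * ∑ i : Fin (d + 1), C (c i.succ : K) * X ^ (i : ℕ)) =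
      (algebraMap (𝓞 K) L (c 0))⁻¹ * ((num c).map (algebraMap (𝓞 K) L)).eval y := by
  have h1 : (∑ i : Fin (d + 1), C (c i.succ : K) * X ^ (i : ℕ) : K[X]) =
      (num c).map (algebraMap (𝓞 K) K) := by
    rw [num, pol_map]
    rfl
  rw [h1, map_mul, aeval_C, map_inv₀, aeval_map_algebraMap, eval_map_algebraMap]
  rfl

theorem dvd_of_preperiodic {K : Type u} {L : Type v} [Field K] [NumberField K] [Field L]
    [Algebra K L] [FiniteDimensional K L] {d : ℕ} (hd : 0 < d) (c : Fin (d + 2) → 𝓞 K)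
    (v : HeightOneSpectrum (𝓞 K)) (h0 : c 0 ≠ 0) (hv : c 0 ∈ v.asIdeal)
    (h : IrrMod v d fun i => c i.succ) (x : L) (m n : ℕ) (hmn : m < n)
    (hx : (fun y => aeval y (C ((c 0 : K)⁻¹) * ∑ i : Fin (d + 1), C (c i.succ : K) *
      X ^ (i : ℕ)))^[m] x = (fun y => aeval y (C ((c 0 : K)⁻¹) * ∑ i : Fin (d + 1),
        C (c i.succ : K) * X ^ (i : ℕ)))^[n] x) :
    d ∣ Module.finrank K L := by
  have hL : NumberField L := NumberField.of_module_finite K L
  obtain ⟨h1, h2, h3⟩ := num_facts c v h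
  simp only [map_eq] at hx
  have := dvd_finrank v (c 0) hv h0 (num c) (by rwa [h1]) h2 h3 x
    (not_injective_iter _ _ m n hmn hx)
  rwa [h1] at this

end Pool.Agent.TH377.Dyn
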